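import Pool.Agent.Helper87_UT.Stmts

/-!
# UT, module DEC: decoding of the words of the tester
-/

set_option autoImplicit false

namespace Pool.Agent.UT.H88

open Pool.Agent.UT

theorem tDec_ans (ans : List Bool) :
    tDec (ans.flatMap (fun b => [true, true, b])) = (0, [], ans) := by
  induction ans with
  | nil => simp [tDec]
  | cons b l ih =>
    rw [List.flatMap_cons]
    simp only [List.cons_append, List.nil_append, tDec, ih]

theorem tDec_lab (lab ans : List Bool) :
    tDec (lab.flatMap (fun b => [true, false, b]) ++ ans.flatMap (fun b => [true, true, b])) =
      (0, lab, ans) := by
  induction lab with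
  | nil => simpa using tDec_ans ans
  | cons b l ih =>
    rw [List.flatMap_cons]
    simp only [List.cons_append, List.nil_append, tDec, ih]

theorem dec : DecStmt := by
  intro a lab ans
  unfold tEnc
  induction a with
  | zero => simpa using tDec_lab lab ans
  | succ a ih =>
    rw [List.range_succ_eq_map, List.flatMap_cons]
    have h : (List.map Nat.succ (List.range a)).flatMap (fun _ => [false, false, false]) =
        (List.range a).flatMap (fun _ => [false, false, false]) := by
      rw [List.flatMap_map]
    rw [h]
    simp only [List.cons_append, List.nil_append, tDec]
    rw [ih]

end Pool.Agent.UT.H88
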