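import Pool.Agent.Helper87_UT.Stmts

/-!
# UT, module TAC: acceptance in terms of the sampling test
-/

set_option autoImplicit false

namespace Pool.Agent.UT.H88

open Finset
open Pool.Agent.UT
open Pool.Agent.Helper76_Bisect

theorem countP_range_sum (N : ℕ) (p : ℕ → Bool) :
    (((List.range N).countP p : ℕ) : ℝ) = ∑ s : Fin N, rb (p s.val) := by
  rw [Fin.sum_univ_eq_sum_range (fun i => rb (p i)) N]
  induction N with
  | zero => simp
  | succ N ih =>
    rw [List.range_succ, List.countP_append, Finset.sum_range_succ, ← ih]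
    unfold rb
    by_cases h : p N = true <;> simp [h]

theorem tt_pos {a : ℕ} (ha : 1 ≤ a) : 0 < tt a := by
  unfold tt
  positivity

theorem tk_pos (a : ℕ) : 0 < tk a := by
  unfold tk
  positivity

theorem tm_pos {a : ℕ} (ha : 1 ≤ a) : 0 < tm a := by
  unfold tm
  positivity

theorem tAdj_eq {n a : ℕ} (G : SimpleGraph (Fin n)) (x : Fin (tQ a) → Fin n) (i j : ℕ)
    (hi : i < tQ a) (hj : j < tQ a) :
    rb (tAdj a (ansS G x) i j) = ad G (x ⟨i, hi⟩) (x ⟨j, hj⟩) := by
  classical
  have h1 : i * tQ a + j < tQ a * tQ a := by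
    have : (i + 1) * tQ a ≤ tQ a * tQ a := Nat.mul_le_mul_right _ hi
    rw [add_mul] at this
    omega
  have hQ : 0 < tQ a := by omega
  have h2 : (i * tQ a + j) / tQ a = i := by
    rw [mul_comm, Nat.mul_add_div hQ, Nat.div_eq_of_lt hj, add_zero]
  have h3 : (i * tQ a + j) % tQ a = j := by
    rw [mul_comm, Nat.mul_add_mod, Nat.mod_eq_of_lt hj]
  have h4 : tAdj a (ansS G x) i j = sampleAdj G x i j := by
    unfold tAdj ansS
    rw [List.getD_eq_getElem?_getD, List.getElem?_map, List.getElem?_range h1]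
    simp only [Option.map_some, Option.getD_some]
    rw [h2, h3]
  rw [h4]
  unfold sampleAdj ad rb
  by_cases h : G.Adj (x ⟨i, hi⟩) (x ⟨j, hj⟩)
  · have : ∃ (hi : i < tQ a) (hj : j < tQ a), G.Adj (x ⟨i, hi⟩) (x ⟨j, hj⟩) := ⟨hi, hj, h⟩
    rw [decide_eq_true this, if_pos h, if_pos rfl]
  · have : ¬ ∃ (hi : i < tQ a) (hj : j < tQ a), G.Adj (x ⟨i, hi⟩) (x ⟨j, hj⟩) := by
      rintro ⟨_, _, h'⟩
      exact h h'
    rw [decide_eq_false this, if_neg h, if_neg (by simp)]

theorem rb_and (x y : Bool) : rb (x && y) = rb x * rb y := by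
  unfold rb
  cases x <;> cases y <;> simp

theorem rb_not (x : Bool) : rb (!x) = 1 - rb x := by
  unfold rb
  cases x <;> simp

/-- the sides agree -/
theorem tSide_eq {n a : ℕ} (ha : 1 ≤ a) (G : SimpleGraph (Fin n)) (x : Fin (tQ a) → Fin n)
    (l : List Bool) (lab : Fin n → Fin (tk a)) (π : List Bool) (π' : Fin (tk a) → Fin (tt a) → Bool)
    (hπ : ∀ j s, π.getD (j.val * tt a + s.val) false = π' j s)
    (u : Fin (2 * tm a)) (hlab : (lab (testS x u)).val = tLab a l u) :
    tSide a l (ansS G x) π u = yg G (4 * a) lab (blockS x) π' (testS x u) := by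
  classical
  unfold tSide yg
  rw [decide_eq_decide]
  set j : Fin (tk a) := lab (testS x u) with hj
  rw [← hlab]
  have hT : (0 : ℝ) < tt a := by exact_mod_cast tt_pos ha
  have hv : tk a * tt a + u.val < tQ a := by
    have := u.isLt
    unfold tQ
    omega
  have hb : ∀ s : Fin (tt a), j.val * tt a + s.val < tQ a := by
    intro s
    have h1 := j.isLt
    have h2 := s.isLt
    have h3 : (j.val + 1) * tt a ≤ tk a * tt a := Nat.mul_le_mul_right _ h1
    unfold tQ
    rw [add_mul] at h3
    omega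
  have e1 : (((List.range (tt a)).countP fun s => tAdj a (ansS G x) (j.val * tt a + s)
      (tk a * tt a + u.val) && !π.getD (j.val * tt a + s) false : ℕ) : ℝ) =
      ∑ s : Fin (tt a), ad G (blockS x j s) (testS x u) * (1 - rb (π' j s)) := by
    rw [countP_range_sum]
    refine Finset.sum_congr rfl fun s _ => ?_
    rw [rb_and, rb_not, hπ, tAdj_eq G x _ _ (hb s) hv]
    rfl
  have e2 : (((List.range (tt a)).countP fun s => tAdj a (ansS G x) (j.val * tt a + s)
      (tk a * tt a + u.val) && π.getD (j.val * tt a + s) false : ℕ) : ℝ) =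
      ∑ s : Fin (tt a), ad G (blockS x j s) (testS x u) * rb (π' j s) := by
    rw [countP_range_sum]
    refine Finset.sum_congr rfl fun s _ => ?_
    rw [rb_and, hπ, tAdj_eq G x _ _ (hb s) hv]
    rfl
  have e3 : (((List.range (tt a)).countP fun s => π.getD (j.val * tt a + s) false : ℕ) : ℝ) =
      ∑ s : Fin (tt a), rb (π' j s) := by
    rw [countP_range_sum]
    refine Finset.sum_congr rfl fun s _ => ?_
    rw [hπ]
  have e4 : bhat G (4 * a) (blockS x j) (π' j) (testS x u) * tt a =
      (∑ s : Fin (tt a), ad G (blockS x j s) (testS x u) * (1 - rb (π' j s))) -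
      (∑ s : Fin (tt a), ad G (blockS x j s) (testS x u) * rb (π' j s)) +
      8 * a * (∑ s : Fin (tt a), rb (π' j s)) - 4 * a * tt a := by
    unfold bhat
    have : (∑ s : Fin (tt a), ad G (blockS x j s) (testS x u) * (1 - 2 * rb (π' j s))) =
        (∑ s : Fin (tt a), ad G (blockS x j s) (testS x u) * (1 - rb (π' j s))) -
        (∑ s : Fin (tt a), ad G (blockS x j s) (testS x u) * rb (π' j s)) := by
      rw [← Finset.sum_sub_distrib]
      refine Finset.sum_congr rfl fun s _ => ?_
      ring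
    rw [this]
    field_simp
    ring
  have e5 : bhat G (4 * a) (blockS x j) (π' j) (testS x u) < 0 ↔
      bhat G (4 * a) (blockS x j) (π' j) (testS x u) * tt a < 0 := by
    constructor
    · intro h
      exact mul_neg_of_neg_of_pos h hT
    · intro h
      by_contra h'
      have := mul_nonneg (not_lt.mp h') hT.le
      linarith
  rw [e5, e4, ← e1, ← e2, ← e3]
  constructor
  · intro h
    have h' := (Nat.cast_lt (α := ℝ)).mpr h
    push_cast at h'
    linarith
  · intro h
    rw [← Nat.cast_lt (α := ℝ)]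
    push_cast
    linarith

theorem absdiff (Y m : ℕ) : ((((2 * Y - m) + (m - 2 * Y) : ℕ) : ℝ)) ^ 2 =
    (2 * (Y : ℝ) - m) ^ 2 := by
  rcases le_total m (2 * Y) with h | h
  · rw [Nat.sub_eq_zero_of_le h, add_zero, Nat.cast_sub h]
    push_cast
    ring
  · rw [Nat.sub_eq_zero_of_le h, zero_add, Nat.cast_sub h]
    push_cast
    ring

/-- acceptance for one guess -/
theorem tAcc_iff {n a : ℕ} (ha : 1 ≤ a) (fl : ℕ → ℕ) (G : SimpleGraph (Fin n))
    (x : Fin (tQ a) → Fin n) (l : List Bool) (lab : Fin n → Fin (tk a)) (π : List Bool)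
    (π' : Fin (tk a) → Fin (tt a) → Bool)
    (hπ : ∀ j s, π.getD (j.val * tt a + s.val) false = π' j s)
    (hlab : ∀ u : Fin (2 * tm a), (lab (testS x u)).val = tLab a l u) :
    tAcc fl a l (ansS G x) π = true ↔
      objhat G (4 * a) (pairS x) (yg G (4 * a) lab (blockS x) π') ≤
        thrN fl a + 3 * (1 / (16 * a)) := by
  classical
  have hm : (0 : ℝ) < tm a := by exact_mod_cast tm_pos ha
  have haR : (0 : ℝ) < a := by exact_mod_cast ha
  set y := yg G (4 * a) lab (blockS x) π' with hy
  have eX : (((List.range (tm a)).countP fun r =>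
      tAdj a (ansS G x) (tk a * tt a + 2 * r) (tk a * tt a + 2 * r + 1) &&
      (tSide a l (ansS G x) π (2 * r) && !tSide a l (ansS G x) π (2 * r + 1)) : ℕ) : ℝ) =
      ∑ r, ad G (pairS x r).1 (pairS x r).2 * (rb (y (pairS x r).1) * (1 - rb (y (pairS x r).2))) := by
    rw [countP_range_sum]
    refine Finset.sum_congr rfl fun r _ => ?_
    have hr := r.isLt
    have h1 : tk a * tt a + 2 * r.val < tQ a := by
      unfold tQ
      omega
    have h2 : tk a * tt a + 2 * r.val + 1 < tQ a := by
      unfold tQ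
      omega
    rw [rb_and, rb_and, rb_not, tAdj_eq G x _ _ h1 h2]
    have s1 := tSide_eq ha G x l lab π π' hπ ⟨2 * r.val, by omega⟩ (hlab _)
    have s2 := tSide_eq ha G x l lab π π' hπ ⟨2 * r.val + 1, by omega⟩ (hlab _)
    simp only at s1 s2
    rw [s1, s2]
    rfl
  have eY : (((List.range (tm a)).countP fun r => tSide a l (ansS G x) π (2 * r) : ℕ) : ℝ) =
      ∑ r, rb (y (pairS x r).1) := by
    rw [countP_range_sum]
    refine Finset.sum_congr rfl fun r _ => ?_
    have hr := r.isLt
    have s1 := tSide_eq ha G x l lab π π' hπ ⟨2 * r.val, by omega⟩ (hlab _)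
    simp only at s1
    rw [s1]
    rfl
  unfold tAcc
  simp only [decide_eq_true_eq]
  set X := (List.range (tm a)).countP fun r =>
      tAdj a (ansS G x) (tk a * tt a + 2 * r) (tk a * tt a + 2 * r + 1) &&
      (tSide a l (ansS G x) π (2 * r) && !tSide a l (ansS G x) π (2 * r + 1)) with hX
  set Y := (List.range (tm a)).countP fun r => tSide a l (ansS G x) π (2 * r) with hY
  unfold objhat thrN
  rw [← eX, ← eY]
  have key : (X : ℝ) / tm a + 4 * a * ((Y : ℝ) / tm a - 1 / 2) ^ 2 =
      (64 * a * tm a * X + 64 * a ^ 2 * (2 * (Y : ℝ) - tm a) ^ 2) / (64 * a * (tm a) ^ 2) := by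
    field_simp
    ring
  have key2 : ((fl (4 * tm a ^ 2) : ℝ) + 1) / (4 * (tm a : ℝ) ^ 2) + 3 * (1 / (16 * (a : ℝ))) =
      (16 * a * ((fl (4 * tm a ^ 2) : ℝ) + 1) + 12 * (tm a) ^ 2) / (64 * a * (tm a) ^ 2) := by
    field_simp
    ring
  rw [key, key2, div_le_div_iff_of_pos_right (by positivity), ← absdiff]
  constructor
  · intro h
    have h' := (Nat.cast_le (α := ℝ)).mpr h
    push_cast at h' ⊢
    linarith
  · intro h
    rw [← Nat.cast_le (α := ℝ)]
    push_cast at h ⊢
    linarith

theorem tac (hD : DecStmt) : TacStmt := by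
  classical
  intro fl a n G x labs lab ha hlab
  have hT := tt_pos ha
  have e0 : tEnc a (List.ofFn labs) (ansS G x) ∈ tLang fl ↔
      ∃ π : List Bool, tAcc fl a (List.ofFn labs) (ansS G x) π = true := by
    unfold tLang
    change (∃ π : List Bool, tAcc fl (tDec (tEnc a (List.ofFn labs) (ansS G x))).1
      (tDec (tEnc a (List.ofFn labs) (ansS G x))).2.1
      (tDec (tEnc a (List.ofFn labs) (ansS G x))).2.2 π = true) ↔ _
    rw [hD a (List.ofFn labs) (ansS G x)]
  rw [e0]
  unfold accept
  constructor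
  · rintro ⟨π, hπ⟩
    refine ⟨fun j s => π.getD (j.val * tt a + s.val) false, ?_⟩
    exact (tAcc_iff ha fl G x _ lab π _ (fun _ _ => rfl) hlab).mp hπ
  · rintro ⟨π', hπ'⟩
    let π : List Bool := List.ofFn (n := tk a * tt a) fun c =>
      π' ⟨c.val / tt a, by
        have := c.isLt
        exact Nat.div_lt_of_lt_mul (lt_of_lt_of_eq this (mul_comm _ _))⟩
        ⟨c.val % tt a, Nat.mod_lt _ hT⟩
    refine ⟨π, ?_⟩
    refine (tAcc_iff ha fl G x _ lab π π' ?_ hlab).mpr hπ'
    intro j s
    have h1 : j.val * tt a + s.val < tk a * tt a := by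
      have h2 := j.isLt
      have h3 := s.isLt
      have h4 : (j.val + 1) * tt a ≤ tk a * tt a := Nat.mul_le_mul_right _ h2
      rw [add_mul] at h4
      omega
    have h2 : (j.val * tt a + s.val) / tt a = j.val := by
      rw [mul_comm, Nat.mul_add_div hT, Nat.div_eq_of_lt s.isLt, add_zero]
    have h3 : (j.val * tt a + s.val) % tt a = s.val := by
      rw [mul_comm, Nat.mul_add_mod, Nat.mod_eq_of_lt s.isLt]
    rw [List.getD_eq_getElem _ _ (by simpa [π] using h1)]
    simp only [π, List.getElem_ofFn]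
    have g1 : ∀ (p : (j.val * tt a + s.val) / tt a < tk a),
        (⟨(j.val * tt a + s.val) / tt a, p⟩ : Fin (tk a)) = j := fun p => Fin.ext h2
    have g2 : ∀ (p : (j.val * tt a + s.val) % tt a < tt a),
        (⟨(j.val * tt a + s.val) % tt a, p⟩ : Fin (tt a)) = s := fun p => Fin.ext h3
    rw [g1, g2]

end Pool.Agent.UT.H88
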